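import Mathlib

/-!
# MP_d92bf9_co : a continuous graph parameter strictly above bandwidth whose reduced value is
bounded wherever the reduced bandwidth is bounded

For `K : ℕ` the witness is `f G = bw G + del_K G`, where `del_K G` is the least number of ordered
pairs of adjacent vertices that have to be made non-adjacent so that the bandwidth becomes `≤ K`.
-/

namespace Pool.Agent.Results.MP_d92bf9_co.AboveBandwidth

/-! ## Definitions -/

/-- A graph parameter: an isomorphism-invariant map from finite simple graphs to `ℕ`. -/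
structure GraphParam where
  /-- the value of the parameter -/
  val : ∀ (V : Type) [Finite V], SimpleGraph V → ℕ
  /-- invariance under isomorphism -/
  inv : ∀ (V W : Type) [Finite V] [Finite W] (G : SimpleGraph V) (H : SimpleGraph W),
    Nonempty (G ≃g H) → val V G = val W H

/-- `G` has an ordering (a bijection to `{0,…,n-1}`) in which the ends of every edge are at
distance at most `k`. -/
def BwLE {V : Type} [Finite V] (G : SimpleGraph V) (k : ℕ) : Prop :=
  ∃ σ : V ≃ Fin (Nat.card V), ∀ u v, G.Adj u v →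
    |(((σ u : ℕ)) : ℤ) - (((σ v : ℕ)) : ℤ)| ≤ (k : ℤ)

/-- The bandwidth. -/
noncomputable def bandwidth {V : Type} [Finite V] (G : SimpleGraph V) : ℕ := sInf {k | BwLE G k}

/-- `f ⪯ g`. -/
def Dominated (f g : GraphParam) : Prop :=
  ∃ h : ℕ → ℕ, ∀ (V : Type) [Finite V] (G : SimpleGraph V), f.val V G ≤ h (g.val V G)

/-- Continuity of a graph parameter. -/
def IsContinuous (f : GraphParam) : Prop :=
  ∃ g : ℕ → ℕ,
    (∀ (V : Type) [Finite V] (G : SimpleGraph V) (e : Sym2 V), e ∈ G.edgeSet →
      f.val V G ≤ g (f.val V (G.deleteEdges {e}))) ∧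
    (∀ (V : Type) [Finite V] (G : SimpleGraph V) (v : V), (∀ w, ¬ G.Adj v w) →
      f.val V G ≤ g (f.val ({v}ᶜ : Set V) (G.induce ({v}ᶜ : Set V))))

/-- A trigraph: a graph whose edges are coloured black or red. -/
structure Trigraph (V : Type) where
  /-- the black edges -/
  black : SimpleGraph V
  /-- the red edges -/
  red : SimpleGraph V
  /-- no edge has both colours -/
  disj : ∀ a b, ¬ (black.Adj a b ∧ red.Adj a b)

/-- `T'` is obtained from `T` by contracting two distinct vertices `u`, `v` to one new vertex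
`w = π u = π v`; all other vertices `x` of `T` correspond to the vertices `π x` of `T'`. -/
def Contracts {V W : Type} (T : Trigraph V) (T' : Trigraph W) : Prop :=
  ∃ (π : V → W) (u v : V), u ≠ v ∧ Function.Surjective π ∧
    (∀ a b, π a = π b ↔ (a = b ∨ (a = u ∧ b = v) ∨ (a = v ∧ b = u))) ∧
    (∀ x, x ≠ u → x ≠ v →
      ((T'.black.Adj (π u) (π x) ↔ (T.black.Adj u x ∧ T.black.Adj v x)) ∧
       ((¬ T'.black.Adj (π u) (π x) ∧ ¬ T'.red.Adj (π u) (π x)) ↔
        ((¬ T.black.Adj u x ∧ ¬ T.red.Adj u x) ∧ (¬ T.black.Adj v x ∧ ¬ T.red.Adj v x))))) ∧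
    (∀ x y, x ≠ u → x ≠ v → y ≠ u → y ≠ v →
      ((T'.black.Adj (π x) (π y) ↔ T.black.Adj x y) ∧
       (T'.red.Adj (π x) (π y) ↔ T.red.Adj x y)))

/-- `T` can be reduced by successive contractions to a trigraph with one vertex so that
`f (red graph) ≤ c` for every trigraph of the sequence (including `T` and the last one). -/
inductive ReducesWithin (f : GraphParam) (c : ℕ) : (V : Type) → [Finite V] → Trigraph V → Prop
  | last (V : Type) [Finite V] (T : Trigraph V) (hV : Nat.card V = 1)
      (hc : f.val V T.red ≤ c) : ReducesWithin f c V T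
  | step (V W : Type) [Finite V] [Finite W] (T : Trigraph V) (T' : Trigraph W)
      (hc : f.val V T.red ≤ c) (hT : Contracts T T') (h : ReducesWithin f c W T') :
      ReducesWithin f c V T

/-- The trigraph of a graph: all edges black. -/
def ofGraph {V : Type} (G : SimpleGraph V) : Trigraph V := ⟨G, ⊥, by simp⟩

/-- The reduced value of `f` at `G` is at most `c`: some reduction sequence of `G` has all red
graphs of `f`-value at most `c`. -/
def ReducedLE (f : GraphParam) (c : ℕ) {V : Type} [Finite V] (G : SimpleGraph V) : Prop :=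
  ReducesWithin f c V (ofGraph G)

/-! ## Bandwidth via injective labellings -/

lemma gap {n : ℕ} (g : Fin n → ℤ) (hg : StrictMono g) :
    ∀ (d : ℕ) (i j : Fin n), (j : ℕ) = i + d → g i + d ≤ g j := by
  intro d
  induction d with
  | zero =>
    intro i j h
    have : j = i := Fin.ext (by simpa using h)
    subst this
    simp
  | succ d ih =>
    intro i j h
    have hlt : (i : ℕ) + d < n := by
      have := j.isLt
      omega
    have h1 := ih i ⟨(i : ℕ) + d, hlt⟩ rfl
    have h2 : g ⟨(i : ℕ) + d, hlt⟩ < g j := hg (by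
      rw [Fin.lt_def]
      simp only
      omega)
    push_cast
    omega

lemma bwLE_of_inj {V : Type} [Finite V] {G : SimpleGraph V} {k : ℕ} (φ : V → ℤ)
    (hφ : Function.Injective φ) (h : ∀ u v, G.Adj u v → |φ u - φ v| ≤ (k : ℤ)) : BwLE G k := by
  classical
  have : Fintype V := Fintype.ofFinite V
  have hcard : (Finset.univ.image φ).card = Nat.card V := by
    rw [Finset.card_image_of_injective _ hφ, Nat.card_eq_fintype_card, Finset.card_univ]
  let e := (Finset.univ.image φ).orderIsoOfFin hcard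
  let m : V → (Finset.univ.image φ : Finset ℤ) := fun v => ⟨φ v, by simp⟩
  have hm : Function.Bijective m := by
    constructor
    · intro a b hab
      exact hφ (congrArg Subtype.val hab)
    · rintro ⟨z, hz⟩
      obtain ⟨v, -, hv⟩ := Finset.mem_image.1 hz
      exact ⟨v, Subtype.ext hv⟩
  let σ : V ≃ Fin (Nat.card V) := (Equiv.ofBijective m hm).trans e.symm.toEquiv
  have hσ : ∀ v, ((e (σ v) : (Finset.univ.image φ : Finset ℤ)) : ℤ) = φ v := by
    intro v
    have : e (σ v) = m v := by
      simp [σ]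
    rw [this]
  let g : Fin (Nat.card V) → ℤ := fun i => ((e i : (Finset.univ.image φ : Finset ℤ)) : ℤ)
  have hg : StrictMono g := fun a b hab => by
    have := e.strictMono hab
    exact this
  refine ⟨σ, fun u v huv => ?_⟩
  have huv' := h u v huv
  rw [abs_le] at huv' ⊢
  have hu : g (σ u) = φ u := hσ u
  have hv : g (σ v) = φ v := hσ v
  rcases le_total (σ u : ℕ) (σ v : ℕ) with hle | hle
  · have := gap g hg ((σ v : ℕ) - (σ u : ℕ)) (σ u) (σ v) (by omega)
    rw [hu, hv] at this
    omega
  · have := gap g hg ((σ u : ℕ) - (σ v : ℕ)) (σ v) (σ u) (by omega)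
    rw [hu, hv] at this
    omega

lemma inj_of_bwLE {V : Type} [Finite V] {G : SimpleGraph V} {k : ℕ} (h : BwLE G k) :
    ∃ φ : V → ℤ, Function.Injective φ ∧ ∀ u v, G.Adj u v → |φ u - φ v| ≤ (k : ℤ) := by
  obtain ⟨σ, hσ⟩ := h
  refine ⟨fun v => ((σ v : ℕ) : ℤ), ?_, hσ⟩
  intro a b hab
  apply σ.injective
  apply Fin.ext
  simpa using hab

lemma bwLE_mono {V : Type} [Finite V] {G : SimpleGraph V} {k l : ℕ} (h : BwLE G k)
    (hkl : k ≤ l) : BwLE G l := by
  obtain ⟨σ, hσ⟩ := h
  exact ⟨σ, fun u v huv => (hσ u v huv).trans (by exact_mod_cast hkl)⟩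

lemma bwLE_anti {V : Type} [Finite V] {G H : SimpleGraph V} {k : ℕ} (h : BwLE G k)
    (hHG : H ≤ G) : BwLE H k := by
  obtain ⟨σ, hσ⟩ := h
  exact ⟨σ, fun u v huv => hσ u v (hHG huv)⟩

lemma bwLE_bot {V : Type} [Finite V] (k : ℕ) : BwLE (⊥ : SimpleGraph V) k :=
  ⟨Finite.equivFin V, fun u v huv => by simp at huv⟩

lemma exists_bwLE {V : Type} [Finite V] (G : SimpleGraph V) : ∃ k, BwLE G k := by
  refine ⟨Nat.card V, Finite.equivFin V, fun u v _ => ?_⟩
  have h1 := (Finite.equivFin V u).isLt
  have h2 := (Finite.equivFin V v).isLt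
  rw [abs_le]
  omega

lemma bandwidth_le_iff {V : Type} [Finite V] (G : SimpleGraph V) (k : ℕ) :
    bandwidth G ≤ k ↔ BwLE G k := by
  constructor
  · intro h
    have h1 : BwLE G (bandwidth G) := Nat.sInf_mem (s := {k | BwLE G k}) (exists_bwLE G)
    exact bwLE_mono h1 h
  · intro h
    exact Nat.sInf_le h

/-! ## The deletion distance -/

/-- the ordered pairs adjacent in `G` but not in `H` -/
def Diff {V : Type} (G H : SimpleGraph V) : Set (V × V) := {p | G.Adj p.1 p.2 ∧ ¬ H.Adj p.1 p.2}

/-- some spanning subgraph of bandwidth at most `K` misses at most `t` ordered pairs -/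
def DelLE (K : ℕ) {V : Type} [Finite V] (G : SimpleGraph V) (t : ℕ) : Prop :=
  ∃ H : SimpleGraph V, H ≤ G ∧ BwLE H K ∧ (Diff G H).ncard ≤ t

/-- deletion distance to bandwidth at most `K` -/
noncomputable def del (K : ℕ) {V : Type} [Finite V] (G : SimpleGraph V) : ℕ :=
  sInf {t | DelLE K G t}

lemma exists_delLE (K : ℕ) {V : Type} [Finite V] (G : SimpleGraph V) : ∃ t, DelLE K G t :=
  ⟨_, ⊥, bot_le, bwLE_bot K, le_rfl⟩

lemma del_le_iff (K : ℕ) {V : Type} [Finite V] (G : SimpleGraph V) (t : ℕ) :
    del K G ≤ t ↔ DelLE K G t := by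
  constructor
  · intro h
    obtain ⟨H, h1, h2, h3⟩ : DelLE K G (del K G) :=
      Nat.sInf_mem (s := {t | DelLE K G t}) (exists_delLE K G)
    exact ⟨H, h1, h2, h3.trans h⟩
  · intro h
    exact Nat.sInf_le h

/-! ## Transfer along embeddings of the vertex set -/

lemma bwLE_map {V W : Type} [Finite V] [Finite W] (ι : W ↪ V) (G : SimpleGraph W) (k : ℕ)
    (h : BwLE G k) : BwLE (G.map ι) k := by
  classical
  obtain ⟨φ, hφ, hk⟩ := inj_of_bwLE h
  obtain ⟨N, hN⟩ : ∃ N : ℤ, ∀ w, φ w ≤ N := by
    obtain ⟨N, hN⟩ := (Set.finite_range φ).bddAbove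
    exact ⟨N, fun w => hN ⟨w, rfl⟩⟩
  let ψ : V → ℤ := fun x =>
    if hx : ∃ w, ι w = x then φ hx.choose else N + 1 + ((Finite.equivFin V x : ℕ) : ℤ)
  have h1 : ∀ w, ψ (ι w) = φ w := by
    intro w
    have hx : ∃ w', ι w' = ι w := ⟨w, rfl⟩
    have : hx.choose = w := ι.injective hx.choose_spec
    simp only [ψ, dif_pos hx, this]
  have h2 : ∀ x, (¬ ∃ w, ι w = x) → ψ x = N + 1 + ((Finite.equivFin V x : ℕ) : ℤ) := by
    intro x hx
    simp only [ψ, dif_neg hx]
  refine bwLE_of_inj ψ ?_ ?_
  · intro a b hab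
    by_cases ha : ∃ w, ι w = a
    · obtain ⟨w, rfl⟩ := ha
      by_cases hb : ∃ w, ι w = b
      · obtain ⟨w', rfl⟩ := hb
        rw [h1, h1] at hab
        rw [hφ hab]
      · rw [h1, h2 b hb] at hab
        have := hN w
        omega
    · by_cases hb : ∃ w, ι w = b
      · obtain ⟨w', rfl⟩ := hb
        rw [h1, h2 a ha] at hab
        have := hN w'
        omega
      · rw [h2 a ha, h2 b hb] at hab
        apply (Finite.equivFin V).injective
        apply Fin.ext
        omega
  · intro u v huv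
    rw [SimpleGraph.map_adj] at huv
    obtain ⟨a, b, hab, rfl, rfl⟩ := huv
    rw [h1, h1]
    exact hk a b hab

lemma delLE_map (K : ℕ) {V W : Type} [Finite V] [Finite W] (ι : W ↪ V) (G : SimpleGraph W)
    (t : ℕ) (h : DelLE K G t) : DelLE K (G.map ι) t := by
  obtain ⟨H, h1, h2, h3⟩ := h
  refine ⟨H.map ι, SimpleGraph.map_monotone ι h1, bwLE_map ι H K h2, ?_⟩
  have hsub : Diff (G.map ι) (H.map ι) ⊆ (Prod.map ι ι) '' Diff G H := by
    rintro ⟨a, b⟩ ⟨hG, hH⟩
    simp only [SimpleGraph.map_adj] at hG hH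
    obtain ⟨a', b', hab, rfl, rfl⟩ := hG
    refine ⟨(a', b'), ⟨hab, fun hh => hH ⟨a', b', hh, rfl, rfl⟩⟩, rfl⟩
  calc (Diff (G.map ι) (H.map ι)).ncard ≤ ((Prod.map ι ι) '' Diff G H).ncard :=
        Set.ncard_le_ncard hsub (Set.toFinite _)
    _ ≤ (Diff G H).ncard := Set.ncard_image_le (Set.toFinite _)
    _ ≤ t := h3

lemma map_iso {V W : Type} {G : SimpleGraph V} {H : SimpleGraph W} (e : G ≃g H) :
    H = G.map e.toEquiv.toEmbedding := by
  ext a b
  rw [SimpleGraph.map_adj]
  constructor
  · intro h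
    refine ⟨e.symm a, e.symm b, ?_, ?_, ?_⟩
    · rw [← e.map_adj_iff]
      simpa using h
    · exact e.apply_symm_apply a
    · exact e.apply_symm_apply b
  · rintro ⟨a', b', h, rfl, rfl⟩
    exact e.map_adj_iff.2 h

lemma map_isolated {V : Type} (G : SimpleGraph V) (v : V) (hv : ∀ w, ¬ G.Adj v w) :
    G = (G.induce ({v}ᶜ : Set V)).map (Function.Embedding.subtype _) := by
  ext a b
  rw [SimpleGraph.map_adj]
  constructor
  · intro h
    have ha : a ∈ ({v}ᶜ : Set V) := by
      intro h'
      rw [Set.mem_singleton_iff] at h'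
      subst h'
      exact hv b h
    have hb : b ∈ ({v}ᶜ : Set V) := by
      intro h'
      rw [Set.mem_singleton_iff] at h'
      subst h'
      exact hv a h.symm
    exact ⟨⟨a, ha⟩, ⟨b, hb⟩, h, rfl, rfl⟩
  · rintro ⟨a', b', h, rfl, rfl⟩
    exact h

/-! ## Adding one edge -/

lemma bwLE_addEdge {V : Type} [Finite V] (G : SimpleGraph V) (u v : V) (k : ℕ)
    (h : BwLE (G.deleteEdges {s(u, v)}) k) : BwLE G (2 * k + 1) := by
  obtain ⟨φ, hφ, hk⟩ := inj_of_bwLE h
  refine bwLE_of_inj (fun x => if 2 * φ x - (φ u + φ v) ≤ 0 then -(2 * φ x - (φ u + φ v))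
    else (2 * φ x - (φ u + φ v)) + 1) ?_ ?_
  · intro a b hab
    apply hφ
    simp only at hab
    split_ifs at hab <;> omega
  · intro a b hab
    by_cases he : s(a, b) = s(u, v)
    · rw [Sym2.eq_iff] at he
      rw [abs_le]
      rcases he with ⟨rfl, rfl⟩ | ⟨rfl, rfl⟩
      · push_cast
        split_ifs <;> omega
      · push_cast
        split_ifs <;> omega
    · have h1 : (G.deleteEdges {s(u, v)}).Adj a b := by
        rw [SimpleGraph.deleteEdges_adj]
        exact ⟨hab, he⟩
      have h2 := hk a b h1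
      rw [abs_le] at h2 ⊢
      push_cast
      split_ifs <;> omega

lemma delLE_addEdge (K : ℕ) {V : Type} [Finite V] (G : SimpleGraph V) (u v : V) (t : ℕ)
    (h : DelLE K (G.deleteEdges {s(u, v)}) t) : DelLE K G (t + 2) := by
  obtain ⟨H, h1, h2, h3⟩ := h
  refine ⟨H, h1.trans (SimpleGraph.deleteEdges_le _), h2, ?_⟩
  have hsub : Diff G H ⊆ Diff (G.deleteEdges {s(u, v)}) H ∪ {(u, v), (v, u)} := by
    rintro ⟨a, b⟩ ⟨hG, hH⟩
    by_cases he : s(a, b) = s(u, v)
    · right
      rw [Sym2.eq_iff] at he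
      rcases he with ⟨rfl, rfl⟩ | ⟨rfl, rfl⟩ <;> simp
    · left
      refine ⟨?_, hH⟩
      rw [SimpleGraph.deleteEdges_adj]
      exact ⟨hG, he⟩
  calc (Diff G H).ncard ≤ (Diff (G.deleteEdges {s(u, v)}) H ∪ {(u, v), (v, u)}).ncard :=
        Set.ncard_le_ncard hsub (Set.toFinite _)
    _ ≤ (Diff (G.deleteEdges {s(u, v)}) H).ncard + ({(u, v), (v, u)} : Set (V × V)).ncard :=
        Set.ncard_union_le _ _
    _ ≤ t + 2 := by
        refine Nat.add_le_add h3 ((Set.ncard_insert_le _ _).trans ?_)
        rw [Set.ncard_singleton]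

/-! ## The two parameters -/

/-- bandwidth as a graph parameter -/
noncomputable def bw : GraphParam where
  val V _ G := bandwidth G
  inv V W _ _ G H hGH := by
    obtain ⟨e⟩ := hGH
    apply le_antisymm
    · rw [bandwidth_le_iff, map_iso e.symm]
      exact bwLE_map _ _ _ ((bandwidth_le_iff H _).1 le_rfl)
    · rw [bandwidth_le_iff, map_iso e]
      exact bwLE_map _ _ _ ((bandwidth_le_iff G _).1 le_rfl)

/-- the witness: bandwidth plus deletion distance to bandwidth at most `K` -/
noncomputable def bwDel (K : ℕ) : GraphParam where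
  val V _ G := bandwidth G + del K G
  inv V W _ _ G H hGH := by
    have h1 : bandwidth G = bandwidth H := bw.inv V W G H hGH
    have h2 : del K G = del K H := by
      obtain ⟨e⟩ := hGH
      apply le_antisymm
      · rw [del_le_iff, map_iso e.symm]
        exact delLE_map K _ _ _ ((del_le_iff K H _).1 le_rfl)
      · rw [del_le_iff, map_iso e]
        exact delLE_map K _ _ _ ((del_le_iff K G _).1 le_rfl)
    rw [h1, h2]

lemma continuous_bwDel (K : ℕ) : IsContinuous (bwDel K) := by
  refine ⟨fun x => 2 * x + 3, ?_, ?_⟩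
  · intro V _ G e he
    induction e using Sym2.ind with
    | _ u v =>
    show bandwidth G + del K G ≤ 2 * (bandwidth (G.deleteEdges {s(u, v)})
      + del K (G.deleteEdges {s(u, v)})) + 3
    have h1 : bandwidth G ≤ 2 * bandwidth (G.deleteEdges {s(u, v)}) + 1 := by
      rw [bandwidth_le_iff]
      exact bwLE_addEdge G u v _ ((bandwidth_le_iff _ _).1 le_rfl)
    have h2 : del K G ≤ del K (G.deleteEdges {s(u, v)}) + 2 := by
      rw [del_le_iff]
      exact delLE_addEdge K G u v _ ((del_le_iff _ _ _).1 le_rfl)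
    omega
  · intro V _ G v hv
    show bandwidth G + del K G ≤ 2 * (bandwidth (G.induce ({v}ᶜ : Set V))
      + del K (G.induce ({v}ᶜ : Set V))) + 3
    have h1 : bandwidth G ≤ bandwidth (G.induce ({v}ᶜ : Set V)) := by
      rw [bandwidth_le_iff]
      have := bwLE_map (Function.Embedding.subtype _) (G.induce ({v}ᶜ : Set V)) _
        ((bandwidth_le_iff _ _).1 le_rfl)
      rwa [← map_isolated G v hv] at this
    have h2 : del K G ≤ del K (G.induce ({v}ᶜ : Set V)) := by
      rw [del_le_iff]
      have := delLE_map K (Function.Embedding.subtype _) (G.induce ({v}ᶜ : Set V)) _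
        ((del_le_iff _ _ _).1 le_rfl)
      rwa [← map_isolated G v hv] at this
    omega

/-! ## Disjoint unions of cliques -/

/-- `N` disjoint copies of the complete graph on `K + 2` vertices -/
def cliques (K N : ℕ) : SimpleGraph (Fin N × Fin (K + 2)) where
  Adj p q := p.1 = q.1 ∧ p ≠ q
  symm := ⟨fun _ _ h => ⟨h.1.symm, h.2.symm⟩⟩
  loopless := ⟨fun _ h => h.2 rfl⟩

lemma bwLE_cliques (K N : ℕ) : BwLE (cliques K N) (K + 1) := by
  refine bwLE_of_inj (fun p => ((finProdFinEquiv p : ℕ) : ℤ)) ?_ ?_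
  · intro a b hab
    apply finProdFinEquiv.injective
    apply Fin.ext
    have hab' : ((finProdFinEquiv a : ℕ) : ℤ) = ((finProdFinEquiv b : ℕ) : ℤ) := hab
    exact_mod_cast hab'
  · rintro ⟨i, a⟩ ⟨j, b⟩ ⟨h1, -⟩
    simp only at h1
    subst h1
    have ha := a.isLt
    have hb := b.isLt
    simp only [finProdFinEquiv_apply_val]
    push_cast
    rw [abs_le]
    constructor <;> omega

lemma del_cliques (K N : ℕ) : N ≤ del K (cliques K N) := by
  obtain ⟨H, h1, h2, h3⟩ := (del_le_iff K (cliques K N) _).1 le_rfl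
  refine le_trans ?_ h3
  obtain ⟨φ, hφ, hk⟩ := inj_of_bwLE h2
  have key : ∀ i : Fin N, ∃ a b : Fin (K + 2), ((i, a), (i, b)) ∈ Diff (cliques K N) H := by
    intro i
    by_contra hcon
    push Not at hcon
    have hadj : ∀ a b : Fin (K + 2), a ≠ b → H.Adj (i, a) (i, b) := by
      intro a b hab
      by_contra hH
      exact hcon a b ⟨⟨rfl, fun h => hab (congrArg Prod.snd h)⟩, hH⟩
    classical
    let S : Finset ℤ := Finset.univ.image (fun a : Fin (K + 2) => φ (i, a))
    have hinj : Function.Injective (fun a : Fin (K + 2) => φ (i, a)) := by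
      intro a b hab
      exact congrArg Prod.snd (hφ hab)
    have hcard : S.card = K + 2 := by
      rw [Finset.card_image_of_injective _ hinj, Finset.card_univ, Fintype.card_fin]
    have hne : S.Nonempty := by
      rw [← Finset.card_pos, hcard]
      omega
    obtain ⟨a, -, ha⟩ := Finset.mem_image.1 (S.min'_mem hne)
    obtain ⟨b, -, hb⟩ := Finset.mem_image.1 (S.max'_mem hne)
    have hsub : S ⊆ Finset.Icc (S.min' hne) (S.max' hne) := by
      intro x hx
      rw [Finset.mem_Icc]
      exact ⟨S.min'_le x hx, S.le_max' x hx⟩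
    have hle := Finset.card_le_card hsub
    rw [hcard, Int.card_Icc] at hle
    have hab : a ≠ b := by
      rintro rfl
      rw [← ha, ← hb] at hle
      omega
    have h4 := hk _ _ (hadj a b hab)
    rw [abs_le] at h4
    omega
  choose a b hab using key
  have hinj : Function.Injective (fun i : Fin N => (((i, a i), (i, b i)) :
      (Fin N × Fin (K + 2)) × (Fin N × Fin (K + 2)))) := by
    intro i j hij
    have := congrArg (fun p : (Fin N × Fin (K + 2)) × (Fin N × Fin (K + 2)) => p.1.1) hij
    exact this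
  calc N = (Set.univ : Set (Fin N)).ncard := by rw [Set.ncard_univ, Nat.card_fin]
    _ = ((fun i : Fin N => (((i, a i), (i, b i)) :
      (Fin N × Fin (K + 2)) × (Fin N × Fin (K + 2)))) '' Set.univ).ncard :=
        (Set.ncard_image_of_injective _ hinj).symm
    _ ≤ (Diff (cliques K N) H).ncard := by
        apply Set.ncard_le_ncard _ (Set.toFinite _)
        rintro p ⟨i, -, rfl⟩
        exact hab i

/-! ## Main statement -/

lemma reducesWithin_bwDel (K : ℕ) (V : Type) [Finite V] (T : Trigraph V)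
    (h : ReducesWithin bw K V T) : ReducesWithin (bwDel K) K V T := by
  have key : ∀ (U : Type) [Finite U] (R : SimpleGraph U), bw.val U R ≤ K →
      (bwDel K).val U R ≤ K := by
    intro U _ R hR
    have h1 : BwLE R K := (bandwidth_le_iff R K).1 hR
    have h2 : del K R ≤ 0 := by
      rw [del_le_iff]
      refine ⟨R, le_rfl, h1, ?_⟩
      have : Diff R R = ∅ := by
        ext p
        simp [Diff]
      rw [this, Set.ncard_empty]
    show bandwidth R + del K R ≤ K
    have h3 : bandwidth R ≤ K := hR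
    omega
  induction h with
  | last V T hV hc => exact ReducesWithin.last V T hV (key V _ hc)
  | step V W T T' hc hT h ih => exact ReducesWithin.step V W T T' (key V _ hc) hT ih

/-- Main result.

(1) For every `K` there is a continuous graph parameter `f` strictly above bandwidth
(`bw ⪯ f` and not `f ⪯ bw`) such that every graph of reduced bandwidth at most `K` has
reduced `f`-value at most `K`.

(2) Hence, for every class `C` of finite graphs of bounded reduced bandwidth there is a
continuous parameter strictly above bandwidth whose reduced value is bounded on `C`. -/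
theorem result :
    (∀ K : ℕ, ∃ f : GraphParam, IsContinuous f ∧ Dominated bw f ∧ ¬ Dominated f bw ∧
      ∀ (V : Type) [Finite V] (G : SimpleGraph V), ReducedLE bw K G → ReducedLE f K G) ∧
    (∀ C : ∀ (V : Type) [Finite V], SimpleGraph V → Prop,
      (∃ K : ℕ, ∀ (V : Type) [Finite V] (G : SimpleGraph V), C V G → ReducedLE bw K G) →
      ∃ f : GraphParam, IsContinuous f ∧ Dominated bw f ∧ ¬ Dominated f bw ∧
        ∃ c : ℕ, ∀ (V : Type) [Finite V] (G : SimpleGraph V), C V G → ReducedLE f c G) := by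
  have main : ∀ K : ℕ, ∃ f : GraphParam, IsContinuous f ∧ Dominated bw f ∧ ¬ Dominated f bw ∧
      ∀ (V : Type) [Finite V] (G : SimpleGraph V), ReducedLE bw K G → ReducedLE f K G := by
    intro K
    refine ⟨bwDel K, continuous_bwDel K, ⟨id, fun V _ G => Nat.le_add_right _ _⟩, ?_,
      fun V _ G h => reducesWithin_bwDel K V _ h⟩
    rintro ⟨h, hh⟩
    obtain ⟨M, hM⟩ : ∃ M : ℕ, ∀ j ≤ K + 1, h j ≤ M := by
      refine ⟨(Finset.range (K + 2)).sup h, fun j hj => ?_⟩
      exact Finset.le_sup (f := h) (Finset.mem_range.2 (by omega))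
    have h1 := hh _ (cliques K (M + 1))
    have h2 : bandwidth (cliques K (M + 1)) ≤ K + 1 :=
      (bandwidth_le_iff _ _).2 (bwLE_cliques K (M + 1))
    have h3 := hM _ h2
    have h4 := del_cliques K (M + 1)
    have h5 : (bwDel K).val _ (cliques K (M + 1)) =
      bandwidth (cliques K (M + 1)) + del K (cliques K (M + 1)) := rfl
    have h6 : h (bw.val _ (cliques K (M + 1))) = h (bandwidth (cliques K (M + 1))) := rfl
    omega
  refine ⟨main, ?_⟩
  rintro C ⟨K, hK⟩
  obtain ⟨f, h1, h2, h3, h4⟩ := main K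
  exact ⟨f, h1, h2, h3, K, fun V _ G hG => h4 V G (hK V G hG)⟩

end Pool.Agent.Results.MP_d92bf9_co.AboveBandwidth
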